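import Pool.Agent.N39.RW.Pages

set_option autoImplicit false

/-!
# The pairs `p, 2 p - 1`: a prime and a product of two primes, in all windows around a positive proportion of the
# integers, between powers, and at a positive proportion of the distances
-/

namespace Pool.Agent.Results.MP_0fefc4_nt.ChenTypeWindows

open Filter

/-- `s = 0`: `n` is prime and `2 n - 1` is a product of at most two primes; `s = 1`: `2 n - 1` is prime and `n` is a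
product of at most two primes; in both cases all prime factors of `n` and `2 n - 1` are larger than `z`. -/
def Good (s : Fin 2) (z : ℝ) (n : ℕ) : Prop :=
  (if s = 0 then n.Prime ∧ (2 * n - 1).primeFactorsList.length ≤ 2
    else (2 * n - 1).Prime ∧ n.primeFactorsList.length ≤ 2) ∧
  ∀ q : ℕ, q.Prime → q ∣ n ∨ q ∣ 2 * n - 1 → z < (q : ℝ)

/-- all prime factors of `n` and `2 n - 1` are larger than `z` -/
def Sieved (z : ℝ) (n : ℕ) : Prop := ∀ q : ℕ, q.Prime → q ∣ n ∨ q ∣ 2 * n - 1 → z < (q : ℝ)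

/-- `t` is regular: in ALL windows `(u, v]` with `u ≤ t ≤ v` and `K (log t) ^ 2 ≤ v - u ≤ t` there are at
least `c₁ (v - u) / (log t) ^ 2` good `n`, and at most `c₂ (v - u) / (log t) ^ 2` sieved `n`. -/
def Regular (s : Fin 2) (r : ℕ) (c₁ c₂ K : ℝ) (t : ℕ) : Prop :=
  ∀ u v : ℕ, u ≤ t → t ≤ v → K * Real.log t ^ 2 ≤ (v : ℝ) - u → (v : ℝ) - u ≤ t →
    c₁ * ((v : ℝ) - u) / Real.log t ^ 2 ≤
      ({n : ℕ | u < n ∧ n ≤ v ∧ Good s ((t : ℝ) ^ (1 / (r : ℝ))) n}.ncard : ℝ) ∧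
    ({n : ℕ | u < n ∧ n ≤ v ∧ Sieved ((t : ℝ) ^ (1 / (r : ℝ))) n}.ncard : ℝ) ≤
      c₂ * ((v : ℝ) - u) / Real.log t ^ 2

/-- the values -/
def F (l : Fin 2) (n : ℕ) : ℕ := if l = 0 then n else 2 * n - 1

theorem nr (z : ℝ) (n : ℕ) : Pool.Agent.N39.RW.NR F z n ↔ Sieved z n := by
  unfold Pool.Agent.N39.RW.NR Sieved
  rw [Fin.forall_fin_two]
  simp only [F, if_true, one_ne_zero, if_false]
  constructor
  · rintro ⟨h1, h2⟩ q hq hd
    rcases hd with hd | hd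
    · exact h1 q hq hd
    · exact h2 q hq hd
  · intro h
    exact ⟨fun q hq hd => h q hq (Or.inl hd), fun q hq hd => h q hq (Or.inr hd)⟩

theorem nc (s : Fin 2) (r : ℕ) (z : ℝ) (n : ℕ) (h : Pool.Agent.N39.RW.NC F s (1 - s) r z n) : Good s z n := by
  obtain ⟨h1, h2, h3⟩ := h
  have h4 : Pool.Agent.N39.RW.NR F z n := fun l => (h3 l).2
  refine ⟨?_, (nr z n).1 h4⟩
  revert h1 h2
  fin_cases s
  · intro h1 h2
    simpa [F] using ⟨h1, h2⟩
  · intro h1 h2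
    simpa [F] using ⟨h1, h2⟩

theorem result : ∃ r : ℕ, 1 ≤ r ∧ ∀ s : Fin 2,
    (∃ c₁ c₂ K : ℝ, 0 < c₁ ∧ 0 < c₂ ∧ 0 < K ∧
      (∃ μ : ℝ, 0 < μ ∧ ∀ᶠ x : ℕ in atTop,
        μ * x ≤ ({t : ℕ | t ≤ x ∧ Regular s r c₁ c₂ K t}.ncard : ℝ)) ∧
      ∀ e : ℕ, 2 ≤ e → ∃ ν : ℝ, 0 < ν ∧ ∀ᶠ N : ℕ in atTop, ν * N ≤
        ({m : ℕ | N ≤ m ∧ m < 2 * N ∧
          ν * (m : ℝ) ^ (e - 1) ≤ ({t : ℕ | m ^ e < t ∧ t < (m + 1) ^ e ∧ Regular s r c₁ c₂ K t}.ncard : ℝ) ∧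
          ν * (m : ℝ) ^ (e - 1) / Real.log m ^ 2 ≤
            ({n : ℕ | m ^ e < n ∧ n < (m + 1) ^ e ∧ Good s ((m : ℝ) ^ ((e : ℝ) / r)) n}.ncard : ℝ)}.ncard : ℝ)) ∧
    ∃ c C K : ℝ, 0 < c ∧ 0 < C ∧ 0 < K ∧ ∀ᶠ X : ℕ in atTop,
      ∀ H : ℕ, K * Real.log X ^ 2 ≤ H → H ≤ X →
      c * H ≤ ({d : ℕ | 1 ≤ d ∧ d ≤ H ∧
        c * X / Real.log X ^ 4 ≤ ({n : ℕ | X < n ∧ n + d ≤ 2 * X ∧
          Good s ((X : ℝ) ^ (1 / (r : ℝ))) n ∧ Good s ((X : ℝ) ^ (1 / (r : ℝ))) (n + d)}.ncard : ℝ) ∧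
        ({n : ℕ | X < n ∧ n + d ≤ 2 * X ∧
          Sieved ((X : ℝ) ^ (1 / (r : ℝ))) n ∧ Sieved ((X : ℝ) ^ (1 / (r : ℝ))) (n + d)}.ncard : ℝ) ≤
            C * X / Real.log X ^ 4}.ncard : ℝ) := by
  obtain ⟨r, hr, H⟩ := Pool.Agent.N39.RW.pageL (![1, 2] : Fin 2 → ℕ) (![0, -1] : Fin 2 → ℤ)
    (by rw [Fin.forall_fin_two]; simp)
    (by
      intro l l' h _
      fin_cases l <;> fin_cases l' <;> simp_all)
    (by
      intro p hp
      refine ⟨1, ?_⟩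
      have hp2 := hp.two_le
      have h1 : ¬ (p : ℤ) ∣ 1 := by
        intro h
        have : p ∣ 1 := by exact_mod_cast h
        exact hp.one_lt.ne' (Nat.dvd_one.1 this)
      rw [Fin.forall_fin_two]
      constructor
      · simpa using h1
      · simpa using h1)
    F (by
      intro l n hn
      revert l
      rw [Fin.forall_fin_two]
      constructor
      · simp [F]
      · simp only [F, one_ne_zero, if_false]
        rw [Nat.cast_sub (by omega)]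
        simp
        ring)
    0 1 (by decide)
  refine ⟨r, hr, fun s => ?_⟩
  have hfin2 : ∀ (X d : ℕ) (P : ℕ → Prop), {n : ℕ | X < n ∧ n + d ≤ 2 * X ∧ P n}.Finite := fun X d P =>
    (Set.finite_Iic (2 * X)).subset fun n hn => by
      have := hn.2.1
      show n ≤ 2 * X
      omega
  obtain ⟨⟨c₁, c₂, K, hc₁, hc₂, hK, huse⟩, c, C, K', hc, hC, hK', hd⟩ := H s (1 - s) (by
    fin_cases s
    · exact Or.inl ⟨rfl, rfl⟩
    · exact Or.inr ⟨rfl, rfl⟩)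
  refine ⟨⟨c₁, c₂, K, hc₁, hc₂, hK, ?_⟩, c, C, K', hc, hC, hK', ?_⟩
  · obtain ⟨g1, g2⟩ := huse (Regular s r c₁ c₂ K) (by
      intro t ht u v hu hv h1 h2
      obtain ⟨h3, h4⟩ := ht u v hu hv h1 h2
      constructor
      · refine h3.trans (Nat.cast_le.2 (Set.ncard_le_ncard ?_ ?_))
        · rintro n ⟨h5, h6, h7⟩
          exact ⟨h5, h6, nc s r _ n h7⟩
        · exact (Set.finite_Iic v).subset fun n hn => hn.2.1
      · simp only [nr] at h4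
        exact h4)
    refine ⟨g1, fun e he => ?_⟩
    obtain ⟨ν, hν, g3⟩ := g2 e he
    refine ⟨ν, hν, ?_⟩
    filter_upwards [g3] with N hN
    refine hN.trans (Nat.cast_le.2 (Set.ncard_le_ncard ?_ ?_))
    · rintro m ⟨h1, h2, h3, h4⟩
      refine ⟨h1, h2, h3, h4.trans (Nat.cast_le.2 (Set.ncard_le_ncard ?_ ?_))⟩
      · rintro n ⟨h5, h6, h7⟩
        exact ⟨h5, h6, nc s r _ n h7⟩
      · exact (Set.finite_Iio ((m + 1) ^ e)).subset fun n hn => hn.2.1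
    · exact (Set.finite_Iio (2 * N)).subset fun n hn => hn.2.1
  · filter_upwards [hd] with X hd H hH1 hH2
    refine (hd H hH1 hH2).trans (Nat.cast_le.2 (Set.ncard_le_ncard ?_ ?_))
    · rintro d ⟨h1, h2, h3, h4⟩
      refine ⟨h1, h2, h3.trans (Nat.cast_le.2 (Set.ncard_le_ncard ?_ (hfin2 X d _))), ?_⟩
      · rintro n ⟨h5, h6, h7, h8⟩
        exact ⟨h5, h6, nc s r _ n h7, nc s r _ _ h8⟩
      · simp only [nr] at h4
        exact h4
    · exact (Set.finite_Iic H).subset fun d hd => hd.2.1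

end Pool.Agent.Results.MP_0fefc4_nt.ChenTypeWindows
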