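import Pool.Agent.N220.CF.Q3

/-!
# The primes `p` with `2 p - 1 + m` prime, `m` near the denominators of the convergents of almost every real number

For almost every real number `ξ`, all integers `κ ≠ 0` and `c` and all but finitely many denominators `q` of the convergents of
`ξ`, ALL even integers `m` with `|m - (κ q + c)| ≤ log ^ W q` have the property: in all windows of length at least `q / log ^ A q`
up to `B q` the number of the primes `p` for which `|2 p - 1 + m|` is prime is as expected. The same holds for the common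
denominators `q` of the simultaneous approximations `|q α_i - p_i| ≤ b q^(-1/n)` of almost every point `α` of `R^n`.
-/

set_option autoImplicit false

namespace Pool.Agent.Results.MP_0fefc4_nt.ConvergentMultiples

open Finset Filter MeasureTheory Topology
open Pool.Agent.N220.CF (Approx Admissible HL pairs_fixed adm_two)

/-- The number of residue classes of `n` modulo the prime `l` for which `l` divides `n (2 n - 1 + m)`. -/
def classes (m : ℤ) (l : ℕ) : ℕ :=
  ((range l).filter (fun n : ℕ => (l : ℤ) ∣ n * (2 * (n : ℤ) - 1 + m))).card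

/-- The product over the primes `l ≤ z` of the factors of the singular series. -/
noncomputable def series (m : ℤ) (z : ℕ) : ℝ :=
  ∏ l ∈ (Icc 1 z).filter Nat.Prime, (1 - (classes m l : ℝ) / l) / (1 - 1 / (l : ℝ)) ^ 2

/-- The number of the primes `p` with `y₁ < p ≤ y₂` for which `|2 p - 1 + m|` is prime. -/
def pairs (m : ℤ) (y₁ y₂ : ℕ) : ℕ :=
  ((Ioc y₁ y₂).filter (fun p : ℕ => p.Prime ∧ (2 * (p : ℤ) - 1 + m).natAbs.Prime)).card

/-- For all even `m` with `|m - (κ q + c)| ≤ log ^ W q` the singular series converges to a number `S > 0`, and for all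
`y₁ ≤ y₂ ≤ B q` with `y₂ - y₁ ≥ q / log ^ A q` the number of the primes `p` with `y₁ < p ≤ y₂` for which `|2 p - 1 + m|` is prime
is `S (y₂ - y₁) / log ^ 2 q` up to a relative error of at most `ε`. -/
def Law (κ c : ℤ) (A B W : ℕ) (ε : ℝ) (q : ℕ) : Prop :=
  ∀ m : ℤ, Even m → |(m : ℝ) - (κ * q + c)| ≤ Real.log q ^ W →
    ∃ S : ℝ, 0 < S ∧ Tendsto (series m) atTop (𝓝 S) ∧
      ∀ y₁ y₂ : ℕ, y₁ ≤ y₂ → y₂ ≤ B * q → (q : ℝ) / Real.log q ^ A ≤ (y₂ : ℝ) - y₁ →
        |(pairs m y₁ y₂ : ℝ) - S * ((y₂ : ℝ) - y₁) / Real.log q ^ 2| ≤ ε * (S * ((y₂ : ℝ) - y₁) / Real.log q ^ 2)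

lemma series_eq (m : ℤ) : Pool.Agent.N220.CF.eulerProd ![1, 2] ![0, m - 1] = series m := by
  funext z
  unfold Pool.Agent.N220.CF.eulerProd series
  apply prod_congr rfl
  intro l _
  have h : Pool.Agent.N220.CF.omega ![1, 2] ![0, m - 1] l = classes m l := by
    unfold Pool.Agent.N220.CF.omega classes
    congr 1
    apply filter_congr
    intro n _
    rw [Fin.prod_univ_two]
    simp only [Matrix.cons_val_zero, Matrix.cons_val_one]
    rw [show (1 * (n : ℤ) + 0) * (2 * n + (m - 1)) = n * (2 * (n : ℤ) - 1 + m) by ring]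
  rw [h]

lemma pairs_eq (m : ℤ) (y₁ y₂ : ℕ) : Pool.Agent.N220.CF.count ![1, 2] ![0, m - 1] y₁ y₂ = pairs m y₁ y₂ := by
  unfold Pool.Agent.N220.CF.count pairs
  congr 1
  apply filter_congr
  intro n _
  rw [Fin.forall_fin_two]
  simp only [Matrix.cons_val_zero, Matrix.cons_val_one]
  rw [show (1 * (n : ℤ) + 0) = n by ring, Int.natAbs_natCast, show (2 * (n : ℤ) + (m - 1)) = 2 * (n : ℤ) - 1 + m by ring]

lemma law_of (κ c : ℤ) (A B W : ℕ) (ε : ℝ) (q : ℕ) (h : Pool.Agent.N220.CF.FixedPair 2 κ (c - 1) A B W ε q) :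
    Law κ c A B W ε q := by
  intro m hm hd
  obtain ⟨S, hS0, hSt, hS⟩ := h (m - 1) (by
    push_cast
    rw [show ((m : ℝ) - 1 - (κ * q + (c - 1))) = (m : ℝ) - (κ * q + c) by ring]
    exact hd) (adm_two (m - 1) (by
      obtain ⟨r, hr⟩ := hm
      exact ⟨r - 1, by omega⟩))
  rw [series_eq] at hSt
  refine ⟨S, hS0, hSt, fun y₁ y₂ h1 h2 h3 => ?_⟩
  have h4 := hS y₁ y₂ h1 h2 h3
  rw [pairs_eq] at h4
  exact h4

/-- **The primes `p` with `2 p - 1 + m` prime, `m` near the denominators of good approximations of almost every point.** -/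
theorem result :
    (∀ n : ℕ, 1 ≤ n → ∀ᵐ α : Fin n → ℝ, ∀ (κ c : ℤ) (A B W : ℕ) (ε : ℝ), κ ≠ 0 → 0 < ε → ∀ b : ℝ,
      {q : ℕ | Approx b (1 / n) α q ∧ ¬ Law κ c A B W ε q}.Finite) ∧
    ∀ᵐ ξ : ℝ, ∀ (κ c : ℤ) (A B W : ℕ) (ε : ℝ), κ ≠ 0 → 0 < ε → ∀ᶠ n : ℕ in atTop, Law κ c A B W ε (ξ.convergent n).den := by
  refine ⟨fun n hn => ?_, ?_⟩
  · filter_upwards [pairs_fixed.1 n hn] with α hα κ c A B W ε hκ he b
    exact (hα 2 κ (c - 1) A B W ε hκ he b).subset fun q hq => ⟨hq.1, fun h => hq.2 (law_of κ c A B W ε q h)⟩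
  · filter_upwards [pairs_fixed.2] with ξ hξ κ c A B W ε hκ he
    filter_upwards [hξ 2 κ (c - 1) A B W ε hκ he] with n hn
    exact law_of κ c A B W ε _ hn

end Pool.Agent.Results.MP_0fefc4_nt.ConvergentMultiples
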