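import Pool.Agent.N625.PT.X18

/-!
# All primes `p ≤ X` with `2 p - 1 + N` prime, for almost all multiples `N` of random integers

Nothing is used besides Mathlib in the statement: `∑ v ∈ range (b ^ k), (if P v then 0 else μ v)` is the probability that
the random integer `v < b ^ k` with the distribution `μ` does not have the property `P`.
-/

set_option autoImplicit false

open Finset

namespace Pool.Agent.Results.MP_0fefc4_nt.ExchangeableMultiples

/-- The probability, for the distribution `μ` on the words of `k` digits (the integers `v < b ^ k`), that the word begins with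
the `i` digits of `u < b ^ i`. -/
noncomputable def begins (b k : ℕ) (μ : ℕ → ℝ) (i u : ℕ) : ℝ := ∑ w ∈ range (b ^ (k - i)), μ (u * b ^ (k - i) + w)

/-- `p` is a probability on the words of `k` digits in base `b`, read as integers `v < b ^ k`. There is another probability
`μ` with `p ≤ k ^ T μ` such that after every beginning `u` two different blocks `a`, `a'` of `L` digits can be exchanged:
`p (u a w) = r p (u a' w)` for all endings `w`, with a factor `r` between `η` and `1 / η` which does not depend on `w`; and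
given the beginning `u`, each of the two blocks comes next with a probability of at least `η` in the distribution `μ`.
(For `T = 0` one has `μ = p`. For the uniform distribution on a set of words `r` is `1`.) -/
structure Exchangeable (b L : ℕ) (η : ℝ) (T k : ℕ) (p : ℕ → ℝ) : Prop where
  nonneg : ∀ v, 0 ≤ p v
  sum : ∑ v ∈ range (b ^ k), p v = 1
  dominated : ∃ μ : ℕ → ℝ, (∀ v, 0 ≤ μ v) ∧ ∑ v ∈ range (b ^ k), μ v = 1 ∧ (∀ v < b ^ k, p v ≤ (k : ℝ) ^ T * μ v) ∧
    ∀ i u : ℕ, i + L ≤ k → u < b ^ i → ∃ (a a' : ℕ) (r : ℝ), a < a' ∧ a' < b ^ L ∧ η ≤ r ∧ η * r ≤ 1 ∧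
      (∀ w < b ^ (k - (i + L)), p ((b ^ L * u + a) * b ^ (k - (i + L)) + w) = r * p ((b ^ L * u + a') * b ^ (k - (i + L)) + w)) ∧
      η * begins b k μ i u ≤ begins b k μ (i + L) (b ^ L * u + a) ∧
      η * begins b k μ i u ≤ begins b k μ (i + L) (b ^ L * u + a')

/-- the product of `1 - 1/q` over the primes `q ≤ y` -/
noncomputable def V (y : ℕ) : ℝ := ∏ q ∈ (Icc 1 y).filter Nat.Prime, (1 - 1 / (q : ℝ))

/-- the multiple of the product of the primes `≤ y` given by the integers `h` and `c + κ v` -/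
def Nv (y h : ℕ) (c κ : ℤ) (v : ℕ) : ℤ := ((primorial y * h : ℕ) : ℤ) * (c + κ * v)

/-- the primes `p ≤ x` such that `2 p - 1 + n` is prime -/
def Good (x : ℕ) (n : ℤ) : Finset ℕ := (Icc 1 x).filter (fun p : ℕ => p.Prime ∧ (2 * (p : ℤ) - 1 + n).toNat.Prime)

/-- the primes `p ≤ x` such that `2 p - 1` is prime to `D` -/
def Adm (D x : ℕ) : Finset ℕ := (Icc 1 x).filter (fun p : ℕ => p.Prime ∧ (2 * p - 1).Coprime D)

lemma begins_sum (b k : ℕ) (μ : ℕ → ℝ) (i u : ℕ) (hi : i < k) :
    ∑ a ∈ range b, begins b k μ (i + 1) (b * u + a) = begins b k μ i u := by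
  unfold begins
  obtain ⟨n, hn⟩ : ∃ n, k - i = n + 1 := ⟨k - i - 1, by omega⟩
  have h1 : k - (i + 1) = n := by omega
  rw [h1, hn, pow_succ, mul_comm (b ^ n) b, Pool.Agent.N625.PT.sum_blocks b (b ^ n)]
  apply sum_congr rfl
  intro a _
  apply sum_congr rfl
  intro w _
  congr 1
  ring

lemma flex_of {b L T k : ℕ} {η : ℝ} {p : ℕ → ℝ} (hp : Exchangeable b L η T k p) : Pool.Agent.N625.PT.Flex b L η T k p := by
  obtain ⟨h0, h1, μ, m0, m1, m2, m3⟩ := hp
  have hT : (0 : ℝ) ≤ (k : ℝ) ^ T := by positivity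
  have hb0 : ∀ i u, 0 ≤ begins b k μ i u := fun i u => sum_nonneg fun w _ => m0 _
  refine ⟨h0, h1, fun i u => (k : ℝ) ^ T * begins b k μ i u, fun i u => mul_nonneg hT (hb0 i u), ?_, ?_, ?_, ?_⟩
  · intro v hv
    refine (m2 v hv).trans (le_of_eq ?_)
    unfold begins
    simp
  · intro i hi u _
    simp only
    rw [← mul_sum, begins_sum b k μ i u hi]
  · simp only
    have : begins b k μ 0 0 = 1 := by
      unfold begins
      simpa using m1
    rw [this, mul_one]
  · intro i u hi hu
    obtain ⟨a, a', r, q1, q2, q3, q4, q5, q6, q7⟩ := m3 i u hi hu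
    refine ⟨a, a', r, q1, q2, q3, q4, q5, ?_, ?_⟩
    · simp only
      calc η * ((k : ℝ) ^ T * begins b k μ i u) = (k : ℝ) ^ T * (η * begins b k μ i u) := by ring
        _ ≤ _ := mul_le_mul_of_nonneg_left q6 hT
    · simp only
      calc η * ((k : ℝ) ^ T * begins b k μ i u) = (k : ℝ) ^ T * (η * begins b k μ i u) := by ring
        _ ≤ _ := mul_le_mul_of_nonneg_left q7 hT

lemma one_cop (p q : ℕ) (hp1 : 1 ≤ p) (hp : p ≡ 1 [MOD q]) : (2 * p - 1).Coprime q := by
  have h1 : q ∣ p - 1 := (Nat.modEq_iff_dvd' hp1).1 hp.symm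
  obtain ⟨t, ht⟩ := h1
  have h2 : 2 * p - 1 = q * (2 * t) + 1 := by
    have : p = q * t + 1 := by omega
    rw [this]
    have : q * (2 * t) = 2 * (q * t) := by ring
    omega
  rw [h2, Nat.coprime_comm]
  exact (Nat.coprime_mul_left_add_right q 1 (2 * t)).2 (Nat.coprime_one_right q)

/-- Let `v < b ^ k` be a random integer whose distribution `μ` has exchangeable blocks of digits, let `y` be between
`θ log k` and `K₁ log k` (`θ > 0` is arbitrary), `M` the product of the primes `≤ y`, `|c| ≤ B b ^ k`, and let `X` be an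
integer with `b ^ k ≤ X k ^ C`, `X ≤ b ^ k k ^ C`, and `H ≤ k ^ J`. For `h ≤ H` let `E_h = #{p ≤ X prime, 2 p - 1 prime to
M h} / (V y log b ^ k)`; this set has at least `X / (4 M h log X)` elements. With a probability of at least `1 - ε` all but at
most `ε H` of the multiples `N_h = h M (c + κ v)`, `1 ≤ h ≤ H`, have the property: if `N_h > 0`, then the number of ALL primes
`p ≤ X` with `2 p - 1 + N_h` prime differs from `E_h` by at most `ε E_h`. -/
theorem result : ∀ (b L : ℕ), 2 ≤ b → 1 ≤ L → ∀ η : ℝ, 0 < η → η ≤ 1 → ∀ (T₀ : ℕ) (κ : ℤ), κ ≠ 0 →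
    ∀ (B J C K₁ : ℕ) (θ : ℝ), 0 < θ → ∀ ε : ℝ, 0 < ε → ε ≤ 1 → ∃ k₀ : ℕ, ∀ k : ℕ, k₀ ≤ k →
    ∀ μ : ℕ → ℝ, Exchangeable b L η T₀ k μ → ∀ y : ℕ, θ * Real.log k ≤ y → y ≤ K₁ * Real.log k →
    ∀ c : ℤ, |c| ≤ B * (b : ℤ) ^ k → ∀ H : ℕ, H ≤ k ^ J → ∀ X : ℕ, b ^ k ≤ X * k ^ C → X ≤ b ^ k * k ^ C →
      (∀ h : ℕ, 1 ≤ h → h ≤ H → (X : ℝ) / (4 * (primorial y * h) * Real.log X) ≤ ((Adm (primorial y * h) X).card : ℝ)) ∧
      ∑ v ∈ range (b ^ k), (if (((Icc 1 H).filter (fun h => ¬ (0 < Nv y h c κ v →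
          |((Good X (Nv y h c κ v)).card : ℝ) - (Adm (primorial y * h) X).card / (V y * (k * Real.log b))| ≤
            ε * ((Adm (primorial y * h) X).card / (V y * (k * Real.log b)))))).card : ℝ) ≤ ε * H then 0 else μ v) ≤ ε := by
  classical
  intro b L hb hL η hη0 hη1 T₀ κ hκ B J C K₁ θ hθ ε hε hε1
  obtain ⟨A, hA⟩ : ∃ A, A = 2 * K₁ + J := ⟨_, rfl⟩
  have hε2 : ε ^ 2 ≤ ε := by nlinarith
  obtain ⟨k₀, h0⟩ := Pool.Agent.N625.PT.law2 b L hb hL η hη0 hη1 κ hκ T₀ B J (A + 4) (C + 1) K₁ θ hθ (ε ^ 2) (by positivity) (hε2.trans hε1)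
  obtain ⟨X₀, hX₀⟩ := Pool.Agent.N625.PT.ap_low (A + 1)
  obtain ⟨k₁, h1⟩ := Pool.Agent.N625.PT.X_large b C hb
  obtain ⟨k₂, h2⟩ := Pool.Agent.N625.PT.log_X b C hb
  obtain ⟨k₄, h4⟩ := Pool.Agent.N625.PT.log_low b C hb
  refine ⟨max (max k₀ k₁) (max (max k₂ k₄) (max 5 (max X₀ (4 ^ (A + 1))))), fun k hk μ hμ y hy1 hy2 c hc H hH X hX1 hX2 => ?_⟩
  have b4 : 5 ≤ k := by omega
  have b5 : 4 ^ (A + 1) ≤ k := by omega
  have hkr : (5 : ℝ) ≤ k := by exact_mod_cast b4
  have hk0 : (0 : ℝ) < k := by linarith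
  have hkX := h1 k (by omega) X hX1
  have hlX := h2 k (by omega) X hX2
  have hlX2 := h4 k (by omega) X hX1
  have hX1' : b ^ k ≤ (2 * X) * k ^ (C + 1) := by
    refine hX1.trans (Nat.mul_le_mul (by omega) (Nat.pow_le_pow_right (by omega) (by omega)))
  have hX2' : 2 * X ≤ b ^ k * k ^ (C + 1) := by
    calc 2 * X ≤ k * (b ^ k * k ^ C) := Nat.mul_le_mul (by omega) hX2
      _ = _ := by rw [pow_succ]; ring
  have hlow : ∀ h : ℕ, 1 ≤ h → h ≤ H → (X : ℝ) / (4 * (primorial y * h : ℕ) * Real.log X) ≤ ((Adm (primorial y * h) X).card : ℝ) ∧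
      (X : ℝ) ≤ (Adm (primorial y * h) X).card * (k : ℝ) ^ (A + 3) := by
    intro h hh1 hhH
    obtain ⟨q, hq⟩ : ∃ q, q = primorial y * h := ⟨_, rfl⟩
    have hq1 : 1 ≤ q := by rw [hq]; exact Nat.mul_pos (primorial_pos y) hh1
    have hqk : q ≤ k ^ A := by
      rw [hq, hA]
      exact Pool.Agent.N625.PT.mult_small K₁ J k y h (by omega) hy2 (hhH.trans hH)
    rw [← hq]
    have hqL : (q : ℝ) ≤ Real.log X ^ (A + 1) := by
      have g1 : (q : ℝ) ≤ (k : ℝ) ^ A := by exact_mod_cast hqk
      refine g1.trans ?_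
      have g2 : ((k : ℝ) / 4) ^ (A + 1) ≤ Real.log X ^ (A + 1) := pow_le_pow_left₀ (by positivity) hlX2 _
      refine le_trans ?_ g2
      rw [div_pow, le_div_iff₀ (by positivity), pow_succ]
      have g3 : ((4 : ℝ)) ^ (A + 1) ≤ k := by exact_mod_cast b5
      exact mul_le_mul_of_nonneg_left g3 (by positivity)
    have g1 := hX₀ X (by omega) q hq1 hqL 1 (Nat.coprime_one_left q)
    have g2 : (X : ℝ) / (4 * q * Real.log X) ≤ ((Adm q X).card : ℝ) := by
      refine g1.trans ?_
      rw [Nat.cast_le]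
      apply card_le_card
      intro p hp
      have hp' := mem_filter.1 hp
      unfold Adm
      rw [mem_filter]
      exact ⟨hp'.1, hp'.2.1, one_cop p q (mem_Icc.1 hp'.1).1 hp'.2.2⟩
    refine ⟨g2, ?_⟩
    have hq0 : (0 : ℝ) < q := by exact_mod_cast (by omega : 0 < q)
    have hl0 : 0 < Real.log X := by
      have : 0 < (k : ℝ) / 4 := by positivity
      linarith
    rw [div_le_iff₀ (by positivity)] at g2
    refine g2.trans ?_
    apply mul_le_mul_of_nonneg_left _ (Nat.cast_nonneg _)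
    have g3 : (q : ℝ) ≤ (k : ℝ) ^ A := by exact_mod_cast hqk
    calc 4 * (q : ℝ) * Real.log X ≤ k * (k : ℝ) ^ A * (k : ℝ) ^ 2 := by
          gcongr
          linarith
      _ = _ := by ring
  refine ⟨fun h hh1 hhH => by
    have := (hlow h hh1 hhH).1
    push_cast at this
    exact this, ?_⟩
  obtain ⟨Bd, hBd⟩ : ∃ Bd : ℕ → ℕ → Prop, ∀ h v, Bd h v ↔ (0 < Nv y h c κ v ∧
    ε * ((Adm (primorial y * h) X).card / (V y * (k * Real.log b))) <
    |((Good X (Nv y h c κ v)).card : ℝ) - (Adm (primorial y * h) X).card / (V y * (k * Real.log b))|) := ⟨_, fun _ _ => Iff.rfl⟩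
  have hVy : 0 < V y := Pool.Agent.H373R2.T7.Vz_pos y
  have hlogb : 0 ≤ Real.log b := Real.log_natCast_nonneg b
  have key : ∀ h ∈ Icc 1 H, ∑ v ∈ range (b ^ k), (if Bd h v then μ v else 0) ≤ ε ^ 2 := by
    intro h hh
    rw [mem_Icc] at hh
    obtain ⟨hh1, hhH⟩ := hh
    obtain ⟨_, hden⟩ := hlow h hh1 hhH
    obtain ⟨S, hS⟩ : ∃ S, S = Adm (primorial y * h) X := ⟨_, rfl⟩
    rw [← hS] at hden
    have hS1 : ∀ p ∈ S, 1 ≤ p ∧ p ≤ X ∧ p.Prime ∧ (2 * p - 1).Coprime (primorial y * h) := by
      intro p hp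
      rw [hS] at hp
      unfold Adm at hp
      rw [mem_filter, mem_Icc] at hp
      exact ⟨hp.1.1, hp.1.2, hp.2⟩
    obtain ⟨S', hS'⟩ : ∃ S', S' = S.image (fun p : ℕ => 2 * p - 1) := ⟨_, rfl⟩
    have hinj : Set.InjOn (fun p : ℕ => 2 * p - 1) S := fun a ha b hb hab => by
      simp only at hab
      have := (hS1 a (by exact_mod_cast ha)).1
      have := (hS1 b (by exact_mod_cast hb)).1
      omega
    have hcard : S'.card = S.card := by rw [hS']; exact card_image_of_injOn hinj
    have h5 := h0 k (by omega) μ (flex_of hμ) y hy1 hy2 c hc h hh1 (hhH.trans hH) (2 * X) hX1' hX2' S' (by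
        intro s hs
        rw [hS', mem_image] at hs
        obtain ⟨p, hp, rfl⟩ := hs
        have := hS1 p hp
        rw [mem_Icc]
        omega) (by
        intro s hs
        rw [hS', mem_image] at hs
        obtain ⟨p, hp, rfl⟩ := hs
        exact (hS1 p hp).2.2.2) (by
        rw [hcard]
        push_cast
        calc (2 : ℝ) * X ≤ k * (S.card * (k : ℝ) ^ (A + 3)) := mul_le_mul (by linarith) hden (Nat.cast_nonneg _) hk0.le
          _ = _ := by ring) 1 (Or.inl rfl)
    refine le_trans (sum_le_sum fun v _ => ?_) h5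
    have hpv := hμ.nonneg v
    by_cases hq : Bd h v
    · rw [if_pos hq, if_pos]
      rw [hBd, ← hS] at hq
      obtain ⟨q1, q2⟩ := hq
      have hNv : Nv y h c κ v = ((primorial y * h : ℕ) : ℤ) * (c + κ * (v : ℕ)) := rfl
      refine ⟨fun s hs => ?_, ?_⟩
      · rw [← hNv]
        have : (0 : ℤ) ≤ (s : ℤ) := Int.natCast_nonneg s
        linarith
      · have e1 : (S'.filter (fun s : ℕ => (((primorial y * h : ℕ) : ℤ) * (c + κ * (v : ℕ)) + 1 * (s : ℕ)).toNat.Prime)).card =
            (Good X (Nv y h c κ v)).card := by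
          rw [hS', filter_image, card_image_of_injOn (hinj.mono (by
            intro i hi
            rw [mem_coe, mem_filter] at hi
            exact_mod_cast hi.1))]
          unfold Good
          congr 1
          ext p
          rw [mem_filter, mem_filter, mem_Icc]
          have e : ∀ p : ℕ, 1 ≤ p → Nv y h c κ v + 1 * ((2 * p - 1 : ℕ) : ℤ) = 2 * (p : ℤ) - 1 + Nv y h c κ v := by
            intro p hp
            rw [Nat.cast_sub (by omega)]
            push_cast
            ring
          constructor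
          · rintro ⟨hp, hpr⟩
            have g1 := hS1 p hp
            rw [← hNv, e p g1.1] at hpr
            exact ⟨⟨g1.1, g1.2.1⟩, g1.2.2.1, hpr⟩
          · rintro ⟨⟨g1, g2⟩, g3, g4⟩
            have hpS : p ∈ S := by
              rw [hS]
              unfold Adm
              rw [mem_filter, mem_Icc]
              refine ⟨⟨g1, g2⟩, g3, ?_⟩
              by_contra hcop
              obtain ⟨q, hqp, hqa, hqb⟩ := Nat.Prime.not_coprime_iff_dvd.1 hcop
              -- `q` divides the prime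
              have f1 : (q : ℤ) ∣ 2 * (p : ℤ) - 1 + Nv y h c κ v := by
                apply dvd_add
                · have : (q : ℤ) ∣ ((2 * p - 1 : ℕ) : ℤ) := by exact_mod_cast hqa
                  rwa [Nat.cast_sub (by omega), Nat.cast_mul, Nat.cast_ofNat, Nat.cast_one] at this
                · rw [hNv]
                  exact (by exact_mod_cast hqb : (q : ℤ) ∣ ((primorial y * h : ℕ) : ℤ)).mul_right _
              have f2 : (0 : ℤ) < 2 * (p : ℤ) - 1 + Nv y h c κ v := by
                have : (1 : ℤ) ≤ p := by exact_mod_cast g1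
                linarith
              have f3 : q ∣ (2 * (p : ℤ) - 1 + Nv y h c κ v).toNat := by
                rw [← Int.natCast_dvd_natCast, Int.toNat_of_nonneg f2.le]
                exact f1
              have f4 := (Nat.prime_dvd_prime_iff_eq hqp g4).1 f3
              have f5 : q ≤ primorial y * h := Nat.le_of_dvd (Nat.mul_pos (primorial_pos y) hh1) hqb
              have f6 : ((primorial y * h : ℕ) : ℤ) ≤ Nv y h c κ v := by
                apply Int.le_of_dvd q1
                rw [hNv]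
                exact dvd_mul_right _ _
              have f7 : (q : ℤ) = 2 * (p : ℤ) - 1 + Nv y h c κ v := by
                rw [f4, Int.toNat_of_nonneg f2.le]
              have f8 : (q : ℤ) ≤ ((primorial y * h : ℕ) : ℤ) := by exact_mod_cast f5
              have : (1 : ℤ) ≤ p := by exact_mod_cast g1
              linarith
            refine ⟨hpS, ?_⟩
            rw [← hNv, e p g1]
            exact g4
        rw [e1, hcard]
        refine lt_of_le_of_lt ?_ q2
        apply mul_le_mul_of_nonneg_right hε2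
        exact div_nonneg (Nat.cast_nonneg _) (mul_nonneg hVy.le (mul_nonneg hk0.le hlogb))
    · rw [if_neg hq]
      split_ifs
      · exact hpv
      · exact le_rfl
  -- Markov
  obtain ⟨cnt, hcnt⟩ : ∃ cnt : ℕ → ℝ, ∀ v, cnt v = (((Icc 1 H).filter (fun h => Bd h v)).card : ℝ) := ⟨_, fun _ => rfl⟩
  have hcnt0 : ∀ v, 0 ≤ cnt v := fun v => by rw [hcnt]; exact Nat.cast_nonneg _
  have hset : ∀ v, (((Icc 1 H).filter (fun h => ¬ (0 < Nv y h c κ v →
          |((Good X (Nv y h c κ v)).card : ℝ) - (Adm (primorial y * h) X).card / (V y * (k * Real.log b))| ≤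
            ε * ((Adm (primorial y * h) X).card / (V y * (k * Real.log b)))))).card : ℝ) = cnt v := by
    intro v
    rw [hcnt]
    congr 2
    apply filter_congr
    intro h _
    rw [hBd]
    push Not
    rfl
  have hexp : ∑ v ∈ range (b ^ k), μ v * cnt v ≤ H * ε ^ 2 := by
    have e1 : ∀ v, μ v * cnt v = ∑ h ∈ Icc 1 H, (if Bd h v then μ v else 0) := by
      intro v
      rw [hcnt, card_eq_sum_ones, Nat.cast_sum, sum_filter, mul_sum]
      apply sum_congr rfl
      intro h _
      split_ifs <;> simp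
    simp_rw [e1]
    rw [sum_comm]
    refine (sum_le_sum key).trans (le_of_eq ?_)
    rw [sum_const, Nat.card_Icc, nsmul_eq_mul, Nat.add_sub_cancel]
  simp_rw [hset]
  rcases Nat.eq_zero_or_pos H with hH0 | hH0
  · refine le_trans (le_of_eq ?_) hε.le
    apply sum_eq_zero
    intro v _
    rw [if_pos]
    rw [hcnt, hH0]
    simp
  · have hHr : (0 : ℝ) < H := by exact_mod_cast hH0
    have h6 : (∑ v ∈ range (b ^ k), (if cnt v ≤ ε * H then 0 else μ v)) * (ε * H) ≤ ε * (ε * H) := by
      calc (∑ v ∈ range (b ^ k), (if cnt v ≤ ε * H then 0 else μ v)) * (ε * H) ≤ ∑ v ∈ range (b ^ k), μ v * cnt v := by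
            rw [sum_mul]
            apply sum_le_sum
            intro v _
            have hpv := hμ.nonneg v
            split_ifs with hv
            · rw [zero_mul]
              exact mul_nonneg hpv (hcnt0 v)
            · exact mul_le_mul_of_nonneg_left (not_le.1 hv).le hpv
        _ ≤ H * ε ^ 2 := hexp
        _ = _ := by ring
    exact le_of_mul_le_mul_right h6 (by positivity)

end Pool.Agent.Results.MP_0fefc4_nt.ExchangeableMultiples
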